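import Pool.Agent.H.MP_1efb31_co.F

namespace Pool.Agent.Results.MP_1efb31_co.BelowOne

/-- the cells of the `n × n` board, as integer points `(x, y)` with `1 ≤ x, y ≤ n` -/
def Cell (n : ℕ) : Type := {a : ℤ × ℤ // 1 ≤ a.1 ∧ a.1 ≤ n ∧ 1 ≤ a.2 ∧ a.2 ≤ n}

/-- the point of the Euclidean plane given by a cell -/
noncomputable def pt {n : ℕ} (a : Cell n) : EuclideanSpace ℝ (Fin 2) := !₂[(a.1.1 : ℝ), a.1.2]

/-- no three distinct points of `S` lie on a common straight line -/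
def NoThree {n : ℕ} (S : Set (Cell n)) : Prop :=
  ∀ a ∈ S, ∀ b ∈ S, ∀ c ∈ S, a ≠ b → a ≠ c → b ≠ c → ¬ Collinear ℝ {pt a, pt b, pt c}

/-- every colour class has the no-three-in-line property -/
def Admissible {n K : ℕ} (f : Cell n → Fin K) : Prop := ∀ i, NoThree {a | f a = i}

theorem result (ε : ℝ) (hε : 0 < ε) : ∃ N : ℕ, ∀ n : ℕ, N ≤ n →
    ∃ K : ℕ, (K : ℝ) ≤ (29 / 30 + ε) * n ∧ ∃ f : Cell n → Fin K, Admissible f := by
  obtain ⟨N, h⟩ := Pool.Agent.H.MP_1efb31_co.main hε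
  refine ⟨N, fun n hn => ?_⟩
  obtain ⟨K, hK, f, f1, f2⟩ := h n hn
  have m : ∀ a : Cell n, a.1 ∈ Finset.Icc (1 : ℤ) n ×ˢ Finset.Icc (1 : ℤ) n := fun a => by
    have := a.2
    simp only [Finset.mem_product, Finset.mem_Icc]
    tauto
  refine ⟨K, hK, fun a => ⟨f a.1, f1 _ (m a)⟩, fun i a ha b hb c hc ab ac bc hcol => ?_⟩
  exact f2 _ (m a) _ (m b) _ (m c) (Subtype.val_injective.ne ab) (Subtype.val_injective.ne ac)
    (Subtype.val_injective.ne bc) (Pool.Agent.H.MP_1efb31_co.det_of_collinear hcol)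
    (congrArg Fin.val (ha.trans hb.symm)) (congrArg Fin.val (ha.trans hc.symm))

end Pool.Agent.Results.MP_1efb31_co.BelowOne
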